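import Pool.Agent.helper36.PT.Spec

/-! # Project PT (MP_ad8ced_nt), row COR -/

set_option autoImplicit false

namespace Pool.Agent.PT

open Finset Pool.Agent.helper71.AA

theorem COR : COR_stmt := by
  classical
  intro Q hQ p q ξ ζ c₁ c₂ hc₁ hc₂ h₁ h₂
  rw [corr_id (Q.erase p) (Q.erase q) (Nn Q p q)
    (fun l hl => hQ l (Finset.mem_of_mem_erase hl)) (fun l hl => hQ l (Finset.mem_of_mem_erase hl))]
  have hset : Q.erase p ∩ Q.erase q = (Q.erase p).erase q := by
    ext l
    simp only [Finset.mem_inter, Finset.mem_erase]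
    tauto
  rw [hset]
  set M : Finset ℕ := (Q.erase p).erase q with hM
  set N : Finset ℕ := Nn Q p q with hN
  have hMQ : ∀ l ∈ M, 2 ≤ l := by
    intro l hl
    exact hQ l (Finset.mem_of_mem_erase (Finset.mem_of_mem_erase hl))
  have hCf : Cf Q p q = ∑ K ∈ M.powerset,
      ∏ l ∈ K, (81 * (if l ∈ N then (l : ℝ) - 1 else 1) / ((l : ℝ) - 1) ^ 2) := by
    unfold Cf
    rw [Finset.prod_one_add]
  have hterm : ∀ K ∈ M.powerset, |kap N K * Th (Q.erase p) ξ K * Th (Q.erase q) ζ K| ≤
      c₁ * c₂ * ∏ l ∈ K, (81 * (if l ∈ N then (l : ℝ) - 1 else 1) / ((l : ℝ) - 1) ^ 2) := by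
    intro K hK
    rw [Finset.mem_powerset] at hK
    have hK1 : K ⊆ Q.erase p := hK.trans (Finset.erase_subset _ _)
    have hK2 : K ⊆ Q.erase q := by
      intro l hl
      have := hK hl
      rw [hM] at this
      simp only [Finset.mem_erase] at this ⊢
      tauto
    have hphpos : 0 < ph K := by
      unfold ph
      apply Finset.prod_pos
      intro l hl
      have := hMQ l (hK hl)
      have h2 : (2 : ℝ) ≤ l := by exact_mod_cast this
      linarith
    have hkap : |kap N K| = ∏ l ∈ K, (if l ∈ N then (l : ℝ) - 1 else 1) := by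
      unfold kap
      rw [Finset.abs_prod]
      apply Finset.prod_congr rfl
      intro l hl
      have := hMQ l (hK hl)
      have h2 : (2 : ℝ) ≤ l := by exact_mod_cast this
      by_cases h : l ∈ N
      · rw [if_pos h, if_pos h, abs_of_nonneg (by linarith)]
      · rw [if_neg h, if_neg h]; norm_num
    have hprod : ∏ l ∈ K, (81 * (if l ∈ N then (l : ℝ) - 1 else 1) / ((l : ℝ) - 1) ^ 2) =
        |kap N K| * (9 ^ K.card / ph K) * (9 ^ K.card / ph K) := by
      rw [hkap]
      rw [Finset.prod_div_distrib, Finset.prod_mul_distrib, Finset.prod_const, Finset.prod_pow]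
      have h81 : (81 : ℝ) ^ K.card = 9 ^ K.card * 9 ^ K.card := by
        rw [← mul_pow]; norm_num
      rw [h81]
      have : (∏ l ∈ K, ((l : ℝ) - 1)) = ph K := rfl
      rw [this]
      field_simp
    rw [hprod]
    calc |kap N K * Th (Q.erase p) ξ K * Th (Q.erase q) ζ K|
        = |kap N K| * |Th (Q.erase p) ξ K| * |Th (Q.erase q) ζ K| := by
          rw [abs_mul, abs_mul]
      _ ≤ |kap N K| * (c₁ * (9 ^ K.card / ph K)) * (c₂ * (9 ^ K.card / ph K)) := by
          have h1 := h₁ K hK1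
          have h2 := h₂ K hK2
          have hn : 0 ≤ (9 : ℝ) ^ K.card / ph K := by positivity
          gcongr
      _ = c₁ * c₂ * (|kap N K| * (9 ^ K.card / ph K) * (9 ^ K.card / ph K)) := by ring
  calc |∑ K ∈ M.powerset, kap N K * Th (Q.erase p) ξ K * Th (Q.erase q) ζ K|
      ≤ ∑ K ∈ M.powerset, |kap N K * Th (Q.erase p) ξ K * Th (Q.erase q) ζ K| :=
        Finset.abs_sum_le_sum_abs _ _
    _ ≤ ∑ K ∈ M.powerset, c₁ * c₂ *
        ∏ l ∈ K, (81 * (if l ∈ N then (l : ℝ) - 1 else 1) / ((l : ℝ) - 1) ^ 2) :=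
        Finset.sum_le_sum hterm
    _ = c₁ * c₂ * Cf Q p q := by rw [hCf, Finset.mul_sum]

end Pool.Agent.PT
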